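import Mathlib

/-!
A verified checker for equational proofs in groups. Words are numerals in base 256 (lowest digit
first); the digit `2 i` stands for the generator `v i`, the digit `2 i + 1` for its inverse, and
`v 0 = 1`. A table holds equations between words; each one is justified by earlier ones.
-/

namespace Pool.Agent.P.MP_9682d1_al.KR

variable {G : Type*} [Group G]

/-- The conjugate `a ^ b`. -/
def cj (a b : G) : G := b⁻¹ * a * b

/-- The commutator `[a, b]`. -/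
def cm (a b : G) : G := a⁻¹ * (b⁻¹ * a * b)

def lt (v : ℕ → G) (c : ℕ) : G := if c % 2 = 0 then v (c / 2) else (v (c / 2))⁻¹

def ev (v : ℕ → G) (x : ℕ) : G :=
  if _h : x = 0 then 1 else lt v (x % 256) * ev v (x / 256)
termination_by x
decreasing_by omega

theorem ev_zero (v : ℕ → G) : ev v 0 = 1 := by rw [ev, dif_pos rfl]

theorem ev_unf {v : ℕ → G} (hv : v 0 = 1) (x : ℕ) : ev v x = lt v (x % 256) * ev v (x / 256) := by
  by_cases h : x = 0
  · subst h
    simp [ev_zero, lt, hv]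
  · rw [ev, dif_neg h]

theorem ev_cat0 {v : ℕ → G} (hv : v 0 = 1) (n : ℕ) : ∀ a c : ℕ, a < 256 ^ n →
    ev v (a + c * 256 ^ n) = ev v a * ev v c := by
  induction n with
  | zero =>
    intro a c h
    have : a = 0 := by simpa using h
    subst this
    simp [ev_zero]
  | succ n ih =>
    intro a c h
    have e1 : (a + c * 256 ^ (n + 1)) % 256 = a % 256 := by
      rw [pow_succ, ← mul_assoc, Nat.add_mul_mod_self_right]
    have e2 : (a + c * 256 ^ (n + 1)) / 256 = a / 256 + c * 256 ^ n := by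
      rw [pow_succ, ← mul_assoc, Nat.add_mul_div_right _ _ (by norm_num)]
    rw [ev_unf hv, e1, e2, ih _ _ (by rw [pow_succ] at h; omega), ev_unf hv a, mul_assoc]

theorem ev_cat {v : ℕ → G} (hv : v 0 = 1) {n a : ℕ} (hn : 8 ∣ n) (h : a < 2 ^ n) (c : ℕ) :
    ev v (a + c <<< n) = ev v a * ev v c := by
  obtain ⟨m, rfl⟩ := hn
  have e : 2 ^ (8 * m) = 256 ^ m := by rw [pow_mul]; norm_num
  rw [Nat.shiftLeft_eq, e]
  exact ev_cat0 hv m a c (e ▸ h)

theorem ev_cut {v : ℕ → G} (hv : v 0 = 1) {n : ℕ} (hn : 8 ∣ n) (x : ℕ) :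
    ev v x = ev v (x % 1 <<< n) * ev v (x >>> n) := by
  rw [← ev_cat hv hn (by rw [Nat.one_shiftLeft]; exact Nat.mod_lt _ (by positivity)),
    Nat.one_shiftLeft, Nat.shiftLeft_eq, Nat.shiftRight_eq_div_pow, Nat.mod_add_div']

theorem mod_lt' (x n : ℕ) : x % 1 <<< n < 2 ^ n := by
  rw [Nat.one_shiftLeft]
  exact Nat.mod_lt _ (by positivity)

theorem dvd_and (x : ℕ) : 8 ∣ x &&& 65528 := by
  have h : (x &&& 65528) % 2 ^ 3 = 0 := by
    rw [← Nat.and_two_pow_sub_one_eq_mod, Nat.and_assoc]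
    exact Nat.and_zero x
  exact Nat.dvd_of_mod_eq_zero h

theorem ev_let {v : ℕ → G} (hv : v 0 = 1) {c : ℕ} (h : c < 256) : ev v c = lt v c := by
  rw [ev_unf hv, Nat.mod_eq_of_lt h, Nat.div_eq_of_lt h, ev_zero, mul_one]

theorem lt_xor (v : ℕ → G) (c : ℕ) : lt v (c ^^^ 1) = (lt v c)⁻¹ := by
  unfold lt
  rcases Nat.even_or_odd c with h | h
  · rw [Nat.xor_one_of_even h]
    obtain ⟨m, rfl⟩ := h
    rw [if_neg (by omega), if_pos (by omega), show (m + m + 1) / 2 = (m + m) / 2 by omega]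
  · rw [Nat.xor_one_of_odd h]
    obtain ⟨m, rfl⟩ := h
    rw [if_pos (by omega), if_neg (by omega), inv_inv,
      show (2 * m + 1 - 1) / 2 = (2 * m + 1) / 2 by omega]

theorem xor_lt {c : ℕ} (h : c < 256) : c ^^^ 1 < 256 :=
  Nat.xor_lt_two_pow (n := 8) h (by norm_num)

/-- Strict evaluation of a number. -/
noncomputable def frc {β : Type} (x : ℕ) (k : ℕ → β) : β :=
  Nat.rec (k 0) (fun n _ => k n.succ) x

theorem frc_eq {β : Type} (x : ℕ) (k : ℕ → β) : frc x k = k x := by cases x <;> rfl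

/-- The table of equations. -/
inductive Tr : Type
  | lf (e : ℕ) : Tr
  | nd (a b : Tr) : Tr

noncomputable def Tr.get (T : Tr) : ℕ → ℕ :=
  Tr.rec (fun e _ => e)
    (fun _ _ ia ib k => frc (Nat.div k 2) fun q => cond (Nat.beq (Nat.mod k 2) 0) (ia q) (ib q)) T

def eL (e : ℕ) : ℕ := e &&& 65528
def eR (e : ℕ) : ℕ := (e >>> 16) &&& 65528
def el (e : ℕ) : ℕ := (e >>> 64) % 1 <<< eL e
def er (e : ℕ) : ℕ := (e >>> 64) >>> eL e

def Ok (v : ℕ → G) (e : ℕ) : Prop := er e < 2 ^ eR e ∧ ev v (el e) = ev v (er e)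

/-- Replace the block `l` of `L` bits at bit position `p` by the block `r` of `R` bits. -/
noncomputable def rep (x p hi l L r R : ℕ) : ℕ :=
  cond (Nat.beq (Nat.mod hi (Nat.shiftLeft 1 L)) l)
    (Nat.add (Nat.mod x (Nat.shiftLeft 1 p))
      (Nat.shiftLeft (Nat.add r (Nat.shiftLeft (Nat.shiftRight hi L) R)) p)) x

theorem rep_ev {v : ℕ → G} (hv : v 0 = 1) {x p l L r R : ℕ} (hp : 8 ∣ p) (hL : 8 ∣ L)
    (hR : 8 ∣ R) (hr : r < 2 ^ R) (h : ev v l = ev v r) :
    ev v (rep x p (x >>> p) l L r R) = ev v x := by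
  unfold rep
  cases hb : Nat.beq (Nat.mod (x >>> p) (Nat.shiftLeft 1 L)) l
  · rfl
  · have e : (x >>> p) % 1 <<< L = l := Nat.eq_of_beq_eq_true hb
    change ev v (x % 1 <<< p + (r + (x >>> p >>> L) <<< R) <<< p) = _
    rw [ev_cat hv hp (mod_lt' _ _), ev_cat hv hR hr, ← h, ← e, ← ev_cut hv hL, ← ev_cut hv hp]

noncomputable def use (T : Tr) (k0 x p hi k d : ℕ) : ℕ :=
  cond (Nat.blt k k0)
    (frc (T.get k) fun e => frc (Nat.land e 65528) fun L => frc (Nat.shiftRight e 64) fun b =>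
      cond (Nat.beq d 0)
        (rep x p hi (Nat.mod b (Nat.shiftLeft 1 L)) L (Nat.shiftRight b L)
          (Nat.land (Nat.shiftRight e 16) 65528))
        (rep x p hi (Nat.shiftRight b L) (Nat.land (Nat.shiftRight e 16) 65528)
          (Nat.mod b (Nat.shiftLeft 1 L)) L)) x

theorem use_ev {v : ℕ → G} (hv : v 0 = 1) {T : Tr} {k0 : ℕ} (hT : ∀ k < k0, Ok v (T.get k))
    {x p : ℕ} (hp : 8 ∣ p) (k d : ℕ) : ev v (use T k0 x p (x >>> p) k d) = ev v x := by
  unfold use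
  cases hb : Nat.blt k k0
  · rfl
  · have h := hT k (Nat.blt_eq.mp hb)
    rw [cond_true, frc_eq, frc_eq, frc_eq]
    cases Nat.beq d 0
    · exact rep_ev hv hp (dvd_and _) (dvd_and _) (mod_lt' _ _) h.2.symm
    · exact rep_ev hv hp (dvd_and _) (dvd_and _) h.1 h.2

noncomputable def pr (c : ℕ) : ℕ := Nat.add c (Nat.shiftLeft (Nat.xor c 1) 8)

theorem pr_ev {v : ℕ → G} (hv : v 0 = 1) (k : ℕ) :
    pr (Nat.mod k 256) < 2 ^ 16 ∧ ev v (pr (Nat.mod k 256)) = ev v 0 := by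
  have h : k % 256 < 256 := Nat.mod_lt _ (by norm_num)
  have h2 := xor_lt h
  change k % 256 + ((k % 256) ^^^ 1) <<< 8 < _ ∧ ev v (k % 256 + ((k % 256) ^^^ 1) <<< 8) = _
  refine ⟨by rw [Nat.shiftLeft_eq]; omega, ?_⟩
  rw [ev_cat hv (by norm_num) h, ev_let hv h, ev_let hv h2, lt_xor, mul_inv_cancel, ev_zero]

/-- One rewriting step. -/
noncomputable def stp (T : Tr) (k0 x s : ℕ) : ℕ :=
  frc (Nat.land s 65528) fun p => frc (Nat.shiftRight x p) fun hi =>
    frc (Nat.shiftRight s 16) fun k =>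
      cond (Nat.beq (Nat.land s 2) 0) (use T k0 x p hi k (Nat.land s 1))
        (frc (Nat.mod k 256) fun c =>
          cond (Nat.beq (Nat.land s 1) 0) (rep x p hi (pr c) 16 0 0) (rep x p hi 0 0 (pr c) 16))

theorem stp_ev {v : ℕ → G} (hv : v 0 = 1) {T : Tr} {k0 : ℕ} (hT : ∀ k < k0, Ok v (T.get k))
    (x s : ℕ) : ev v (stp T k0 x s) = ev v x := by
  unfold stp
  rw [frc_eq, frc_eq, frc_eq]
  cases Nat.beq (Nat.land s 2) 0
  · rw [cond_false, frc_eq]
    have h := pr_ev hv (Nat.shiftRight s 16)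
    cases Nat.beq (Nat.land s 1) 0
    · exact rep_ev hv (dvd_and _) (by norm_num) (by norm_num) h.1 h.2.symm
    · exact rep_ev hv (dvd_and _) (by norm_num) (by norm_num) (by norm_num) h.2
  · exact use_ev hv hT (dvd_and _) _ _

noncomputable def run (T : Tr) (k0 n : ℕ) : ℕ → ℕ → ℕ :=
  Nat.rec (fun _ x => x)
    (fun _ ih s x => frc (Nat.mod s 1099511627776) fun t => frc (stp T k0 x t) fun y =>
      frc (Nat.shiftRight s 40) fun s' => ih s' y) n

theorem run_ev {v : ℕ → G} (hv : v 0 = 1) {T : Tr} {k0 : ℕ} (hT : ∀ k < k0, Ok v (T.get k))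
    (n : ℕ) : ∀ s x, ev v (run T k0 n s x) = ev v x := by
  induction n with
  | zero => exact fun _ _ => rfl
  | succ n ih =>
    intro s x
    change ev v (frc (Nat.mod s 1099511627776) fun t => frc (stp T k0 x t) fun y =>
      frc (Nat.shiftRight s 40) fun s' => run T k0 n s' y) = _
    rw [frc_eq, frc_eq, frc_eq, ih, stp_ev hv hT]

/-- The inverse of the first `n` letters of `x`, in front of `a`. -/
noncomputable def winv (n : ℕ) : ℕ → ℕ → ℕ :=
  Nat.rec (fun _ a => a)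
    (fun _ ih x a => frc (Nat.shiftRight x 8) fun y =>
      frc (Nat.add (Nat.xor (Nat.mod x 256) 1) (Nat.shiftLeft a 8)) fun b => ih y b) n

theorem winv_ev {v : ℕ → G} (hv : v 0 = 1) (n : ℕ) : ∀ x a, x < 256 ^ n →
    ev v (winv n x a) = (ev v x)⁻¹ * ev v a := by
  induction n with
  | zero =>
    intro x a h
    have : x = 0 := by simpa using h
    subst this
    rw [ev_zero, inv_one, one_mul]
    rfl
  | succ n ih =>
    intro x a h
    change ev v (frc (x >>> 8) fun y => frc (((x % 256) ^^^ 1) + a <<< 8) fun b => winv n y b) = _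
    have h1 : x % 256 < 256 := Nat.mod_lt _ (by norm_num)
    have h2 : x >>> 8 = x / 256 := by rw [Nat.shiftRight_eq_div_pow]
    rw [frc_eq, frc_eq, h2, ih _ _ (by rw [pow_succ] at h; omega),
      ev_cat hv (by norm_num) (xor_lt h1), ev_let hv (xor_lt h1), lt_xor, ev_unf hv x,
      mul_inv_rev, mul_assoc]

theorem winv_lt (n : ℕ) : ∀ x a m, a < 256 ^ m → winv n x a < 256 ^ (m + n) := by
  induction n with
  | zero => exact fun _ _ _ h => h
  | succ n ih =>
    intro x a m h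
    change (frc (x >>> 8) fun y => frc (((x % 256) ^^^ 1) + a <<< 8) fun b => winv n y b) < _
    have h1 := xor_lt (Nat.mod_lt x (by norm_num) : x % 256 < 256)
    rw [frc_eq, frc_eq, show m + (n + 1) = (m + 1) + n by ring]
    refine ih _ _ _ ?_
    rw [Nat.shiftLeft_eq, pow_succ]
    omega

/-- Group words in generators and two variables. -/
inductive E : Type
  | g (i : ℕ) : E
  | x : E
  | y : E
  | one : E
  | iv (a : E) : E
  | ml (a b : E) : E
  | cj (a b : E) : E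
  | cm (a b : E) : E
  | pw (a : E) (n : ℕ) : E

def E.ev (v : ℕ → G) (x y : G) : E → G
  | .g i => v (i % 128)
  | .x => x
  | .y => y
  | .one => 1
  | .iv a => (a.ev v x y)⁻¹
  | .ml a b => a.ev v x y * b.ev v x y
  | .cj a b => KR.cj (a.ev v x y) (b.ev v x y)
  | .cm a b => KR.cm (a.ev v x y) (b.ev v x y)
  | .pw a n => a.ev v x y ^ n

/-- A word, its length in bits, and its inverse. -/
structure Wd : Type where
  w : ℕ
  n : ℕ
  i : ℕ

def Wd.Is (v : ℕ → G) (a : Wd) (g : G) : Prop :=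
  8 ∣ a.n ∧ a.w < 2 ^ a.n ∧ a.i < 2 ^ a.n ∧ ev v a.w = g ∧ ev v a.i = g⁻¹

noncomputable def Wd.mul (a b : Wd) : Wd :=
  frc (Nat.add a.w (Nat.shiftLeft b.w a.n)) fun w => frc (Nat.add a.n b.n) fun n =>
    frc (Nat.add b.i (Nat.shiftLeft a.i b.n)) fun i => ⟨w, n, i⟩

def Wd.inv (a : Wd) : Wd := ⟨a.i, a.n, a.w⟩

theorem cat_lt {a c n m : ℕ} (h : a < 2 ^ n) (h' : c < 2 ^ m) : a + c <<< n < 2 ^ (n + m) := by
  rw [Nat.shiftLeft_eq, pow_add]
  nlinarith

theorem Wd.Is.mul {v : ℕ → G} (hv : v 0 = 1) {a b : Wd} {g h : G} (ha : a.Is v g)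
    (hb : b.Is v h) : (a.mul b).Is v (g * h) := by
  unfold Wd.mul
  rw [frc_eq, frc_eq, frc_eq]
  obtain ⟨a1, a2, a3, a4, a5⟩ := ha
  obtain ⟨b1, b2, b3, b4, b5⟩ := hb
  refine ⟨dvd_add a1 b1, cat_lt a2 b2, ?_, ?_, ?_⟩
  · have := cat_lt b3 a3
    rwa [add_comm b.n] at this
  · exact (ev_cat hv a1 a2 _).trans (by rw [a4, b4])
  · exact (ev_cat hv b1 b3 _).trans (by rw [a5, b5, mul_inv_rev])

theorem Wd.Is.inv {v : ℕ → G} {a : Wd} {g : G} (ha : a.Is v g) : a.inv.Is v g⁻¹ :=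
  ⟨ha.1, ha.2.2.1, ha.2.1, ha.2.2.2.2, by rw [inv_inv]; exact ha.2.2.2.1⟩

theorem is_one (v : ℕ → G) : (⟨0, 0, 0⟩ : Wd).Is v 1 :=
  ⟨dvd_zero _, by norm_num, by norm_num, ev_zero v, by rw [inv_one]; exact ev_zero v⟩

/-- Strict evaluation of a word. -/
noncomputable def frw {β : Type} (a : Wd) (k : Wd → β) : β := Wd.rec (fun w n i => k ⟨w, n, i⟩) a

theorem frw_eq {β : Type} (a : Wd) (k : Wd → β) : frw a k = k a := rfl

noncomputable def E.wd (x y : Wd) (e : E) : Wd :=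
  E.rec (fun i => ⟨2 * (i % 128), 8, 2 * (i % 128) + 1⟩) x y ⟨0, 0, 0⟩
    (fun _ a => frw a Wd.inv)
    (fun _ _ a b => frw a fun a => frw b fun b => a.mul b)
    (fun _ _ a b => frw a fun a => frw b fun b => frw (b.inv.mul a) fun c => c.mul b)
    (fun _ _ a b => frw a fun a => frw b fun b => frw (b.inv.mul a) fun c =>
      frw (c.mul b) fun d => a.inv.mul d)
    (fun _ n a => frw a fun a => Nat.rec ⟨0, 0, 0⟩ (fun _ ih => frw ih fun c => c.mul a) n) e

theorem E.wd_is {v : ℕ → G} (hv : v 0 = 1) {x y : Wd} {g h : G} (hx : x.Is v g) (hy : y.Is v h)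
    (e : E) : (e.wd x y).Is v (e.ev v g h) := by
  induction e with
  | g i =>
    have hi : i % 128 < 128 := Nat.mod_lt _ (by norm_num)
    refine ⟨dvd_refl _, (by omega : 2 * (i % 128) < 256), (by omega : 2 * (i % 128) + 1 < 256),
      ?_, ?_⟩
    · change KR.ev v (2 * (i % 128)) = v (i % 128)
      rw [ev_let hv (by omega), lt, if_pos (by omega), Nat.mul_div_cancel_left _ two_pos]
    · change KR.ev v (2 * (i % 128) + 1) = (v (i % 128))⁻¹
      rw [ev_let hv (by omega), lt, if_neg (by omega),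
        show (2 * (i % 128) + 1) / 2 = i % 128 by omega]
  | x => exact hx
  | y => exact hy
  | one => exact is_one v
  | iv a ia => exact ia.inv
  | ml a b ia ib => exact ia.mul hv ib
  | cj a b ia ib => exact (ib.inv.mul hv ia).mul hv ib
  | cm a b ia ib => exact ia.inv.mul hv ((ib.inv.mul hv ia).mul hv ib)
  | pw a n ia =>
    induction n with
    | zero =>
      rw [E.ev, pow_zero]
      exact is_one v
    | succ n ih =>
      rw [E.ev, pow_succ]
      exact Wd.Is.mul hv ih ia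

def AllEq (v : ℕ → G) (x y : G) : List (E × E) → Prop
  | [] => True
  | c :: t => c.1.ev v x y = c.2.ev v x y ∧ AllEq v x y t

/-- A law: conditions and conclusions. -/
abbrev Law : Type := List (E × E) × List (E × E)

def AllLaw (v : ℕ → G) : List Law → Prop
  | [] => True
  | c :: t => (∀ x y : G, AllEq v x y c.1 → AllEq v x y c.2) ∧ AllLaw v t

theorem AllEq.getD {v : ℕ → G} {x y : G} : ∀ {l : List (E × E)}, AllEq v x y l → ∀ j,
    (l.getD j (.one, .one)).1.ev v x y = (l.getD j (.one, .one)).2.ev v x y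
  | [], _, _ => rfl
  | _ :: _, h, 0 => h.1
  | _ :: _, h, j + 1 => AllEq.getD h.2 j

theorem AllLaw.getD {v : ℕ → G} : ∀ {l : List Law}, AllLaw v l → ∀ j (x y : G),
    AllEq v x y (l.getD j ([], [])).1 → AllEq v x y (l.getD j ([], [])).2
  | [], _, _ => fun _ _ h => h
  | _ :: _, h, 0 => h.1
  | _ :: _, h, j + 1 => AllLaw.getD h.2 j

noncomputable def same (x y : Wd) (c : E × E) (e : ℕ) : Bool :=
  Nat.beq (el e) (c.1.wd x y).w && Nat.beq (er e) (c.2.wd x y).w

noncomputable def sameL (T : Tr) (k0 : ℕ) (x y : Wd) (l : List (E × E)) : ℕ → Bool :=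
  List.rec (fun _ => true) (fun c _ ih s => Nat.blt (Nat.mod s 16777216) k0 &&
    (same x y c (T.get (Nat.mod s 16777216)) && ih (Nat.shiftRight s 24))) l

theorem same_iff {v : ℕ → G} (hv : v 0 = 1) {x y : Wd} {g h : G} (hx : x.Is v g) (hy : y.Is v h)
    {c : E × E} {e : ℕ} (hs : same x y c e = true) :
    ev v (el e) = ev v (er e) ↔ c.1.ev v g h = c.2.ev v g h := by
  obtain ⟨h1, h2⟩ := Bool.and_eq_true_iff.1 hs
  rw [Nat.eq_of_beq_eq_true h1, Nat.eq_of_beq_eq_true h2, (c.1.wd_is hv hx hy).2.2.2.1,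
    (c.2.wd_is hv hx hy).2.2.2.1]

theorem sameL_ok {v : ℕ → G} (hv : v 0 = 1) {T : Tr} {k0 : ℕ} (hT : ∀ k < k0, Ok v (T.get k))
    {x y : Wd} {g h : G} (hx : x.Is v g) (hy : y.Is v h) (l : List (E × E)) :
    ∀ s, sameL T k0 x y l s = true → AllEq v g h l := by
  induction l with
  | nil => exact fun _ _ => trivial
  | cons c t ih =>
    intro s hs
    obtain ⟨h1, h2⟩ := Bool.and_eq_true_iff.1 hs
    obtain ⟨h2, h3⟩ := Bool.and_eq_true_iff.1 h2
    exact ⟨(same_iff hv hx hy h2).1 (hT _ (Nat.blt_eq.mp h1)).2, ih _ h3⟩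

noncomputable def mkW (n w : ℕ) : Wd :=
  frc (Nat.mod w (Nat.pow 256 n)) fun u => frc (winv n u 0) fun i => ⟨u, 8 * n, i⟩

theorem mkW_is {v : ℕ → G} (hv : v 0 = 1) (n w : ℕ) :
    (mkW n w).Is v (ev v (w % 256 ^ n)) := by
  unfold mkW
  rw [frc_eq, frc_eq]
  have e : 2 ^ (8 * n) = 256 ^ n := by rw [pow_mul]; norm_num
  have h : w % 256 ^ n < 256 ^ n := Nat.mod_lt _ (by positivity)
  refine ⟨dvd_mul_right _ _, e ▸ h, ?_, rfl, ?_⟩
  · have := winv_lt n (w % 256 ^ n) 0 0 (by norm_num)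
    rw [zero_add] at this
    exact lt_of_lt_of_eq this e.symm
  · exact (winv_ev hv n _ 0 h).trans (by rw [ev_zero, mul_one])

/-- Justifications of the entries in a range. -/
inductive Js : Type
  | pa (h s : ℕ) : Js
  | iv (j : ℕ) : Js
  | lw (j c nx x ny y s : ℕ) : Js
  | nd (a : Js) (m : ℕ) (b : Js) : Js

noncomputable def cpa (T : Tr) (k e h s : ℕ) : Bool :=
  frc (Nat.land (Nat.shiftRight h 16) 65528) fun n => frc (Nat.shiftRight h 32) fun q =>
    frc (Nat.mod q (Nat.shiftLeft 1 n)) fun P => frc (Nat.shiftRight q n) fun S =>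
      frc (Nat.add P (Nat.shiftLeft (Nat.add (el e) (Nat.shiftLeft S (eL e))) n)) fun x =>
        Nat.beq (run T k (Nat.mod h 65536) s x)
          (Nat.add P (Nat.shiftLeft (Nat.add (er e) (Nat.shiftLeft S (eR e))) n))

theorem cpa_ok {v : ℕ → G} (hv : v 0 = 1) {T : Tr} {k : ℕ} (hT : ∀ j < k, Ok v (T.get j))
    {e h s : ℕ} (hr : er e < 2 ^ eR e) (hc : cpa T k e h s = true) :
    ev v (el e) = ev v (er e) := by
  unfold cpa at hc
  rw [frc_eq, frc_eq, frc_eq, frc_eq, frc_eq] at hc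
  have h1 := congrArg (ev v) (Nat.eq_of_beq_eq_true hc)
  rw [run_ev hv hT] at h1
  generalize Nat.shiftRight h 32 = q at h1
  have hn : 8 ∣ Nat.land (Nat.shiftRight h 16) 65528 := dvd_and _
  generalize Nat.land (Nat.shiftRight h 16) 65528 = n at h1 hn
  have h2 : ev v (q % 1 <<< n + (el e + (q >>> n) <<< eL e) <<< n) =
      ev v (q % 1 <<< n + (er e + (q >>> n) <<< eR e) <<< n) := h1
  rw [ev_cat hv hn (mod_lt' _ _), ev_cat hv hn (mod_lt' _ _),
    ev_cat hv (n := eL e) (a := el e) (dvd_and _) (mod_lt' _ _),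
    ev_cat hv (n := eR e) (dvd_and _) hr] at h2
  exact mul_right_cancel (mul_left_cancel h2)

noncomputable def civ (e f : ℕ) : Bool :=
  Nat.beq (el e) (winv (Nat.div (eL f) 8) (el f) 0) &&
    Nat.beq (er e) (winv (Nat.div (eR f) 8) (er f) 0)

theorem lt_div8 {a n : ℕ} (hn : 8 ∣ n) (h : a < 2 ^ n) : a < 256 ^ Nat.div n 8 := by
  obtain ⟨m, rfl⟩ := hn
  have : Nat.div (8 * m) 8 = m := Nat.mul_div_cancel_left m (by norm_num)
  rw [this]
  rw [pow_mul] at h
  exact h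

theorem civ_ok {v : ℕ → G} (hv : v 0 = 1) {e f : ℕ} (hf : Ok v f) (hc : civ e f = true) :
    ev v (el e) = ev v (er e) := by
  obtain ⟨h1, h2⟩ := Bool.and_eq_true_iff.1 hc
  rw [Nat.eq_of_beq_eq_true h1, Nat.eq_of_beq_eq_true h2,
    winv_ev hv _ _ _ (lt_div8 (n := eL f) (a := el f) (dvd_and _) (mod_lt' _ _)),
    winv_ev hv _ _ _ (lt_div8 (n := eR f) (dvd_and _) hf.1), hf.2]

noncomputable def one (T : Tr) (a b : ℕ) (f : ℕ → Bool) : Bool :=
  frc (T.get a) fun e => Nat.beq b (Nat.succ a) &&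
    (Nat.blt (er e) (Nat.shiftLeft 1 (eR e)) && f e)

noncomputable def chk (L : List Law) (T : Tr) (j : Js) : ℕ → ℕ → Bool :=
  Js.rec (fun h s a b => one T a b fun e => cpa T a e h s)
    (fun j a b => one T a b fun e => Nat.blt j a && civ e (T.get j))
    (fun j c nx x ny y s a b => one T a b fun e => frw (mkW nx x) fun X => frw (mkW ny y) fun Y =>
      same X Y ((L.getD j ([], [])).2.getD c (.one, .one)) e &&
        sameL T a X Y (L.getD j ([], [])).1 s)
    (fun _ m _ ia ib a b => ia a m && ib m b) j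

/-- The entries in the range `[a, b)` follow from the earlier ones. -/
def Rg (L : List Law) (T : Tr) (a b : ℕ) : Prop :=
  ∀ (G : Type) [Group G] (v : ℕ → G), v 0 = 1 → AllLaw v L →
    (∀ k < a, Ok v (T.get k)) → ∀ k < b, Ok v (T.get k)

theorem Rg.app {L : List Law} {T : Tr} {a m b : ℕ} (h1 : Rg L T a m) (h2 : Rg L T m b) :
    Rg L T a b := fun G _ v hv hL h => h2 G v hv hL (h1 G v hv hL h)

theorem one_ok {L : List Law} {T : Tr} {a b : ℕ} {f : ℕ → Bool} (h : one T a b f = true)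
    (hf : ∀ (G : Type) [Group G] (v : ℕ → G), v 0 = 1 → AllLaw v L →
      (∀ k < a, Ok v (T.get k)) → ∀ e, er e < 2 ^ eR e → f e = true →
        ev v (el e) = ev v (er e)) : Rg L T a b := by
  unfold one at h
  rw [frc_eq] at h
  obtain ⟨h1, h2⟩ := Bool.and_eq_true_iff.1 h
  obtain ⟨h2, h3⟩ := Bool.and_eq_true_iff.1 h2
  have h4 : er (T.get a) < 1 <<< eR (T.get a) := Nat.blt_eq.mp h2
  rw [Nat.one_shiftLeft] at h4
  intro G _ v hv hL hT k hk
  rw [Nat.eq_of_beq_eq_true h1] at hk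
  rcases Nat.lt_succ_iff_lt_or_eq.1 hk with hk | rfl
  · exact hT k hk
  · exact ⟨h4, hf G v hv hL hT _ h4 h3⟩

theorem rg_of {L : List Law} {T : Tr} (j : Js) : ∀ {a b : ℕ}, chk L T j a b = true →
    Rg L T a b := by
  induction j with
  | pa h s => exact fun hc => one_ok hc fun G _ v hv _ hT e hr he => cpa_ok hv hT hr he
  | iv j =>
    refine fun hc => one_ok hc fun G _ v hv _ hT e _ he => ?_
    obtain ⟨h1, h2⟩ := Bool.and_eq_true_iff.1 he
    exact civ_ok hv (hT j (Nat.blt_eq.mp h1)) h2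
  | lw j c nx x ny y s =>
    refine fun hc => one_ok hc fun G _ v hv hL hT e _ he => ?_
    obtain ⟨h1, h2⟩ := Bool.and_eq_true_iff.1 he
    exact (same_iff hv (mkW_is hv nx x) (mkW_is hv ny y) h1).2
      ((hL.getD j _ _ (sameL_ok hv hT (mkW_is hv nx x) (mkW_is hv ny y) _ _ h2)).getD c)
  | nd a m b ia ib =>
    intro _ _ hc
    obtain ⟨h1, h2⟩ := Bool.and_eq_true_iff.1 hc
    exact (ia h1).app (ib h2)

/-- Reading the goals off the table. -/
theorem goals {L : List Law} {T : Tr} {n : ℕ} (h : Rg L T 0 n) (l : List (E × E)) (s : ℕ)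
    (hs : sameL T n ⟨0, 0, 0⟩ ⟨0, 0, 0⟩ l s = true) {G : Type} [Group G] (v : List G)
    (hL : AllLaw (fun i => (1 :: v).getD i 1) L) :
    AllEq (fun i => (1 :: v).getD i 1) 1 1 l :=
  sameL_ok rfl (h G _ rfl hL fun _ hk => absurd hk (Nat.not_lt_zero _)) (is_one _) (is_one _) l s
    hs

end Pool.Agent.P.MP_9682d1_al.KR
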